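import Pool.Agent.H22.PRK.LRMKb
import Pool.Agent.H22.T1.LDTa
import Pool.Agent.H28.T1.VQB

/-!
# PRK, LRMK (part 3): the lattice at a prime of type `(1, 0)`
-/

set_option autoImplicit false

namespace Pool.PRK.H22

open Polynomial Matrix Pool.HYP Pool.TOW Pool.AVS Pool.T1 Pool.PRK IsDedekindDomain

section Gram

variable {K : Type} [Field K]

theorem gr_shift (k n : ℕ) (f h : K[X]) : gr k n f h = gr 0 n f (X ^ k * h) := by
  ext i j
  simp only [gr, of_apply]
  congr 1
  ring

theorem gram {n : ℕ} {f : K[X]} (hf : f.Monic) (hn : f.natDegree = n) (h0 : 0 < n) (h : K[X])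
    (b : Fin n → K[X]) (k : ℕ) (i j : Fin n) :
    ((Matrix.of fun i j => vec n f (b j) i)ᵀ * gr k n f h *
      (Matrix.of fun i j => vec n f (b j) i)) i j = tau f (X ^ k * h * (b i * b j)) := by
  have h1 : ((Matrix.of fun i j => vec n f (b j) i)ᵀ * gr k n f h *
      (Matrix.of fun i j => vec n f (b j) i)) i j =
      vec n f (b i) ⬝ᵥ (gr k n f h *ᵥ vec n f (b j)) := by
    rw [Matrix.mul_assoc, Matrix.mul_apply]
    rfl
  rw [h1, gr_shift, tau_vec hf hn h0]

end Gram

section Defs

variable {R : Type} [CommRing R]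

/-- The exponent of `d⁻¹`. -/
def te (g : ℕ) (i : ℕ) : ℕ := if i < g then 1 else 0

/-- The exponent of `x`. -/
def ae (g : ℕ) (i : ℕ) : ℕ := if i < g then i else i - 1

/-- The elements of the basis, multiplied by a power of `d`. -/
noncomputable def Bv (g : ℕ) (U E : R[X]) (i : ℕ) : R[X] :=
  if i = g then E else U * X ^ ae g i

/-- The matrix `G`. -/
noncomputable def GG (g : ℕ) (d : R) (γ : R[X]) (e : R) : Matrix (Fin (2 * g + 1)) (Fin (2 * g + 1)) R :=
  Matrix.of fun i j => if (i : ℕ) = g then (if (j : ℕ) = g then e else 0)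
    else if (j : ℕ) = g then 0 else
      if te g i + te g j = 2 then 0 else
        -(d ^ (1 - (te g i + te g j)) * tau γ (X ^ (ae g i + ae g j)))

/-- The matrix `S`. -/
noncomputable def SS (g : ℕ) (d : R) (γ : R[X]) (e : R) : Matrix (Fin (2 * g + 1)) (Fin (2 * g + 1)) R :=
  Matrix.of fun i j => if (i : ℕ) = g then (if (j : ℕ) = g then d * e else 0)
    else if (j : ℕ) = g then 0 else
      -(d ^ (2 - (te g i + te g j)) * tau γ (X ^ (ae g i + ae g j + 1)))

theorem GG_symm (g : ℕ) (d : R) (γ : R[X]) (e : R) : (GG g d γ e)ᵀ = GG g d γ e := by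
  ext i j
  simp only [GG, Matrix.transpose_apply, Matrix.of_apply]
  by_cases h1 : (i : ℕ) = g
  · by_cases h2 : (j : ℕ) = g
    · simp [h1, h2]
    · simp [h1, h2]
  · by_cases h2 : (j : ℕ) = g
    · simp [h1, h2]
    · rw [if_neg h2, if_neg h1, if_neg h1, if_neg h2, add_comm (te g j), add_comm (ae g j)]

theorem SS_symm (g : ℕ) (d : R) (γ : R[X]) (e : R) : (SS g d γ e)ᵀ = SS g d γ e := by
  ext i j
  simp only [SS, Matrix.transpose_apply, Matrix.of_apply]
  by_cases h1 : (i : ℕ) = g
  · by_cases h2 : (j : ℕ) = g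
    · simp [h1, h2]
    · simp [h1, h2]
  · by_cases h2 : (j : ℕ) = g
    · simp [h1, h2]
    · rw [if_neg h2, if_neg h1, if_neg h1, if_neg h2, add_comm (te g j), add_comm (ae g j)]

/-- The determinant of `G` modulo `P`. -/
theorem GG_det {P : Ideal R} (hP : P.IsPrime) {g : ℕ} {d : R} (hd : d ∈ P) {γ : R[X]}
    (hγ : γ.Monic) (hn : γ.natDegree = 2 * g) {e : R} (he : e - 1 ∈ P) :
    (GG g d γ e).det ∉ P := by
  classical
  have hnt : Nontrivial (R ⧸ P) := Ideal.Quotient.nontrivial_iff.2 hP.ne_top
  have hnR : Nontrivial R := ⟨0, 1, fun h => hP.ne_top ((Ideal.eq_top_iff_one _).2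
    (by rw [← h]; exact P.zero_mem))⟩
  have hd0 : Ideal.Quotient.mk P d = 0 := Ideal.Quotient.eq_zero_iff_mem.2 hd
  have he1 : Ideal.Quotient.mk P e = 1 := by
    rw [← map_one (Ideal.Quotient.mk P)]
    exact Ideal.Quotient.eq.2 he
  intro hc
  set M : Matrix (Fin (2 * g + 1)) (Fin (2 * g + 1)) (R ⧸ P) :=
    Matrix.diagonal (fun i : Fin (2 * g + 1) => if (i : ℕ) = g then (1 : R ⧸ P) else -1) *
      (Ideal.Quotient.mk P).mapMatrix (GG g d γ e) with hM
  have hMe : ∀ i j : Fin (2 * g + 1), M i j = (if (i : ℕ) = g then (1 : R ⧸ P) else -1) *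
      Ideal.Quotient.mk P (GG g d γ e i j) := by
    intro i j
    rw [hM, Matrix.diagonal_mul]
    rfl
  have hanti := det_anti (2 * g + 1) M (by
    intro i j hij
    rw [hMe]
    by_cases h1 : (i : ℕ) = g
    · have h2 : (j : ℕ) ≠ g := by omega
      have h3 : GG g d γ e i j = 0 := by simp [GG, h1, h2]
      rw [h3, map_zero, mul_zero]
    · by_cases h2 : (j : ℕ) = g
      · have h3 : GG g d γ e i j = 0 := by simp [GG, h1, h2]
        rw [h3, map_zero, mul_zero]
      · by_cases h3 : te g i + te g j = 2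
        · have h4 : GG g d γ e i j = 0 := by simp [GG, h1, h2, h3]
          rw [h4, map_zero, mul_zero]
        · have h4 : GG g d γ e i j = -(d ^ (1 - (te g i + te g j)) *
            tau γ (X ^ (ae g i + ae g j))) := by simp [GG, h1, h2, h3]
          have h5 : ae g i + ae g j + 1 < 2 * g := by
            unfold te at h3
            unfold ae
            split_ifs at h3 ⊢ <;> omega
          rw [h4, tau_X_pow hγ (by omega),
            if_neg (show ¬ (ae g i + ae g j + 1 = γ.natDegree) by omega), mul_zero, neg_zero,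
            map_zero, mul_zero]) (by
    intro i j hij
    rw [hMe]
    by_cases h1 : (i : ℕ) = g
    · have h2 : (j : ℕ) = g := by omega
      have h3 : GG g d γ e i j = e := by simp [GG, h1, h2]
      rw [h3, if_pos h1, he1, mul_one]
    · have h2 : (j : ℕ) ≠ g := by omega
      have h3 : te g i + te g j = 1 := by
        unfold te
        split_ifs <;> omega
      have h4 : GG g d γ e i j = -(d ^ (1 - (te g i + te g j)) *
            tau γ (X ^ (ae g i + ae g j))) := by simp [GG, h1, h2, h3]
      have h5 : ae g i + ae g j + 1 = 2 * g := by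
        unfold te at h3
        unfold ae
        split_ifs at h3 ⊢ <;> omega
      rw [h4, h3, tau_X_pow hγ (by omega),
        if_pos (show ae g i + ae g j + 1 = γ.natDegree by omega), if_neg h1, Nat.sub_self,
        pow_zero, mul_one, map_neg, map_one]
      ring)
  have hzero : M.det = 0 := by
    rw [hM, Matrix.det_mul, ← RingHom.map_det, Ideal.Quotient.eq_zero_iff_mem.2 hc, mul_zero]
  rw [hzero] at hanti
  have h6 : IsUnit ((-1 : R ⧸ P) ^ ((2 * g + 1) * (2 * g + 1 - 1) / 2)) :=
    (isUnit_one.neg).pow _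
  rw [← hanti] at h6
  exact not_isUnit_zero h6

end Defs

section Blk

variable {R : Type} [CommRing R] [IsDedekindDomain R]

theorem blkd {P : HeightOneSpectrum R} {g : ℕ} {d c e e' : R} (hd : d ∈ P.asIdeal)
    (hd2 : d ∉ P.asIdeal ^ 2) {γ γ' : R[X]} (hγ : γ.Monic) (hγ' : γ'.Monic)
    (hγγ : Zer P.asIdeal (γ' - γ)) (he : e - 1 ∈ P.asIdeal) (he' : e' - c ∈ P.asIdeal) :
    BlkD g (Ideal.Quotient.mk (P.asIdeal ^ 3) d) (Ideal.Quotient.mk (P.asIdeal ^ 3) c)
      (γ.map (Ideal.Quotient.mk (P.asIdeal ^ 3)))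
      ((GG g d γ' e).map (Ideal.Quotient.mk (P.asIdeal ^ 3)))
      ((SS g d γ' e').map (Ideal.Quotient.mk (P.asIdeal ^ 3))) := by
  have hnt : Nontrivial (R ⧸ P.asIdeal ^ 3) := Ideal.Quotient.nontrivial_iff.2 (by
    intro h
    apply P.isPrime.ne_top
    rw [eq_top_iff, ← h]
    exact Ideal.pow_le_self (by norm_num))
  -- divisibility
  have hdv : ∀ (k : ℕ) (z : R), z ∈ P.asIdeal ^ k → Ideal.Quotient.mk (P.asIdeal ^ 3) d ^ k ∣
      Ideal.Quotient.mk (P.asIdeal ^ 3) z := fun k z hz => dvd_mk hd hd2 (m := 2) hz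
  have hdv1 : ∀ z : R, z ∈ P.asIdeal → Ideal.Quotient.mk (P.asIdeal ^ 3) d ∣
      Ideal.Quotient.mk (P.asIdeal ^ 3) z := fun z hz => by
    have := hdv 1 z (by rwa [pow_one])
    rwa [pow_one] at this
  have hgr : ∀ (k : ℕ) (a b : Fin (2 * g)), gr k (2 * g)
      (γ.map (Ideal.Quotient.mk (P.asIdeal ^ 3))) 1 a b =
      Ideal.Quotient.mk (P.asIdeal ^ 3) (tau γ (X ^ ((a : ℕ) + b + k))) := by
    intro k a b
    rw [← Pool.HYP.tau_map _ hγ]
    show tau _ _ = _
    rw [mul_one, Polynomial.map_pow, map_X]
  have hcl : ∀ n, tau γ (X ^ n) - tau γ' (X ^ n) ∈ P.asIdeal := fun n =>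
    tau_close hγ hγ' hγγ n
  constructor
  · intro i j a b hi hj ha hb
    have h1 : GG g d γ' e i j = -tau γ' (X ^ ((a : ℕ) + b)) := by
      have e1 : te g i = 1 := if_pos hi
      have e2 : te g j = 0 := if_neg (by omega)
      have e3 : ae g i = a := by rw [ae, if_pos hi, ha]
      have e4 : ae g j = b := by rw [ae, if_neg (by omega)]; omega
      rw [GG, Matrix.of_apply, if_neg (by omega), if_neg (by omega), e1, e2, if_neg (by omega),
        e3, e4]
      simp
    rw [Matrix.map_apply, h1, hgr, ← map_add]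
    apply hdv1
    have h3 := hcl ((a : ℕ) + b + 0)
    rw [add_zero] at h3 ⊢
    have h4 : -tau γ' (X ^ ((a : ℕ) + b)) + tau γ (X ^ ((a : ℕ) + b)) =
      tau γ (X ^ ((a : ℕ) + b)) - tau γ' (X ^ ((a : ℕ) + b)) := by ring
    rw [h4]
    exact h3
  · intro i hi
    have h1 : GG g d γ' e i i = e := by simp [GG, hi]
    rw [Matrix.map_apply, h1, ← map_one (Ideal.Quotient.mk (P.asIdeal ^ 3)), ← map_sub]
    exact hdv1 _ he
  · intro i j hi hj
    have h1 : GG g d γ' e i j = 0 := by
      rw [GG, Matrix.of_apply, if_pos hi, if_neg (by omega)]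
    rw [Matrix.map_apply, h1, map_zero]
    exact dvd_zero _
  · intro i j a b hi hj ha hb
    have h1 : GG g d γ' e i j = -(d * tau γ' (X ^ ((a : ℕ) + b))) := by
      have e1 : te g i = 0 := if_neg (by omega)
      have e2 : te g j = 0 := if_neg (by omega)
      have e3 : ae g i = a := by rw [ae, if_neg (by omega)]; omega
      have e4 : ae g j = b := by rw [ae, if_neg (by omega)]; omega
      rw [GG, Matrix.of_apply, if_neg (by omega), if_neg (by omega), e1, e2, if_neg (by omega),
        e3, e4]
      simp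
    rw [Matrix.map_apply, h1, hgr, ← map_mul, ← map_add]
    apply hdv
    have h4 : -(d * tau γ' (X ^ ((a : ℕ) + b))) + d * tau γ (X ^ ((a : ℕ) + b + 0)) =
      d * (tau γ (X ^ ((a : ℕ) + b)) - tau γ' (X ^ ((a : ℕ) + b))) := by
      rw [add_zero]
      ring
    rw [h4, pow_two]
    exact Ideal.mul_mem_mul hd (hcl _)
  · intro i j a b hi hj ha hb
    have h1 : SS g d γ' e' i j = -tau γ' (X ^ ((a : ℕ) + b + 1)) := by
      have e1 : te g i = 1 := if_pos hi
      have e2 : te g j = 1 := if_pos hj
      have e3 : ae g i = a := by rw [ae, if_pos hi, ha]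
      have e4 : ae g j = b := by rw [ae, if_pos hj, hb]
      rw [SS, Matrix.of_apply, if_neg (by omega), if_neg (by omega), e1, e2, e3, e4]
      simp
    rw [Matrix.map_apply, h1, hgr, ← map_add]
    apply hdv1
    have h4 : -tau γ' (X ^ ((a : ℕ) + b + 1)) + tau γ (X ^ ((a : ℕ) + b + 1)) =
      tau γ (X ^ ((a : ℕ) + b + 1)) - tau γ' (X ^ ((a : ℕ) + b + 1)) := by ring
    rw [h4]
    exact hcl _
  · intro i j hi hj
    have h1 : SS g d γ' e' i j = 0 := by
      rw [SS, Matrix.of_apply, if_neg (by omega), if_pos hj]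
    rw [Matrix.map_apply, h1, map_zero]
    exact dvd_zero _
  · intro i j a b hi hj ha hb
    have h1 : SS g d γ' e' i j = -(d * tau γ' (X ^ ((a : ℕ) + b + 1))) := by
      have e1 : te g i = 1 := if_pos hi
      have e2 : te g j = 0 := if_neg (by omega)
      have e3 : ae g i = a := by rw [ae, if_pos hi, ha]
      have e4 : ae g j = b := by rw [ae, if_neg (by omega)]; omega
      rw [SS, Matrix.of_apply, if_neg (by omega), if_neg (by omega), e1, e2, e3, e4]
      simp
    rw [Matrix.map_apply, h1, hgr, ← map_mul, ← map_add]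
    apply hdv
    have h4 : -(d * tau γ' (X ^ ((a : ℕ) + b + 1))) + d * tau γ (X ^ ((a : ℕ) + b + 1)) =
      d * (tau γ (X ^ ((a : ℕ) + b + 1)) - tau γ' (X ^ ((a : ℕ) + b + 1))) := by ring
    rw [h4, pow_two]
    exact Ideal.mul_mem_mul hd (hcl _)
  · intro i hi
    have h1 : SS g d γ' e' i i = d * e' := by simp [SS, hi]
    rw [Matrix.map_apply, h1, ← map_mul, ← map_sub, ← mul_sub]
    apply hdv
    rw [pow_two]
    exact Ideal.mul_mem_mul hd he'
  · intro i j hi hj
    have h1 : SS g d γ' e' i j = 0 := by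
      rw [SS, Matrix.of_apply, if_pos hi, if_neg (by omega)]
    rw [Matrix.map_apply, h1, map_zero]
    exact dvd_zero _
  · intro i j a b hi hj ha hb
    have h1 : SS g d γ' e' i j = -(d ^ 2 * tau γ' (X ^ ((a : ℕ) + b + 1))) := by
      have e1 : te g i = 0 := if_neg (by omega)
      have e2 : te g j = 0 := if_neg (by omega)
      have e3 : ae g i = a := by rw [ae, if_neg (by omega)]; omega
      have e4 : ae g j = b := by rw [ae, if_neg (by omega)]; omega
      rw [SS, Matrix.of_apply, if_neg (by omega), if_neg (by omega), e1, e2, e3, e4]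
    have h5 : Ideal.Quotient.mk (P.asIdeal ^ 3) d ^ 2 *
        Ideal.Quotient.mk (P.asIdeal ^ 3) (tau γ (X ^ ((a : ℕ) + b + 1))) =
        Ideal.Quotient.mk (P.asIdeal ^ 3) (d ^ 2 * tau γ (X ^ ((a : ℕ) + b + 1))) := by
      rw [map_mul, map_pow]
    rw [Matrix.map_apply, h1, hgr, h5, ← map_add]
    apply hdv
    have h4 : -(d ^ 2 * tau γ' (X ^ ((a : ℕ) + b + 1))) + d ^ 2 * tau γ (X ^ ((a : ℕ) + b + 1)) =
      d ^ 2 * (tau γ (X ^ ((a : ℕ) + b + 1)) - tau γ' (X ^ ((a : ℕ) + b + 1))) := by ring
    rw [h4, pow_succ]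
    exact Ideal.mul_mem_mul (Ideal.pow_mem_pow hd 2) (hcl _)

end Blk

end Pool.PRK.H22

namespace Pool.PRK

open Polynomial Matrix Pool.HYP Pool.TOW Pool.AVS Pool.T1 IsDedekindDomain Pool.PRK.H22

/-- LRMK: the lattice at a prime of type `(1, 0)`. -/
theorem lrmk (hHEN : HENKStmt) (hTAU : TAUKStmt) (hSQV : SQVKStmt) (hNRM : NRMKStmt) :
    LRMKStmt := by
  classical
  intro R _ _ K _ _ _ P h2 hfin ϖ d c γ f g α hg hf hfn hϖ hϖ2 hd hd2 hγ hfac hα hN hty
  obtain ⟨s, β, v, γ', c', e₀, hs, hβ, hγ'm, hγ'n, hγγ, n1, n2, n3, n4⟩ :=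
    lrmk_data hHEN hTAU hSQV hNRM P h2 hfin hg hf hfn hϖ hϖ2 hd hd2 hγ hfac hα hN hty
  obtain ⟨⟨O, hO, hU, -⟩, -, -⟩ := vqb R K P d hd hd2
  have hmem : ∀ x : K, x ∈ RP K P ↔ x ∈ O := fun x => by rw [← hO]; rfl
  have hd0 : algebraMap R K d ≠ 0 := hU.1
  have hntR : Nontrivial R := ⟨0, 1, fun h => P.isPrime.ne_top ((Ideal.eq_top_iff_one _).2
    (by rw [← h]; exact P.asIdeal.zero_mem))⟩
  -- the vectors
  obtain ⟨U, hUd⟩ : ∃ U : R[X], U = (X - C c') * v := ⟨_, rfl⟩
  obtain ⟨E, hEd⟩ : ∃ E : R[X], E = γ' * C e₀ := ⟨_, rfl⟩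
  rw [← hUd] at n1
  rw [← hUd, ← hEd] at n2
  rw [← hEd] at n3 n4
  obtain ⟨e, he⟩ : ∃ e : R, e = tau f (β * E ^ 2) := ⟨_, rfl⟩
  obtain ⟨e', he'⟩ : ∃ e' : R, e' = tau f (β * E ^ 2 * X) := ⟨_, rfl⟩
  rw [← he] at n3
  rw [← he'] at n4
  set b : Fin (2 * g + 1) → K[X] := fun i =>
    s * (C ((algebraMap R K d ^ te g i)⁻¹) * fk K (Bv g U E i)) with hb
  set κ : Matrix (Fin (2 * g + 1)) (Fin (2 * g + 1)) K :=
    Matrix.of fun i j => vec (2 * g + 1) (fk K f) (b j) i with hκ
  have hfK : (fk K f).Monic := hf.map _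
  have hfKn : (fk K f).natDegree = 2 * g + 1 := by rw [hf.natDegree_map, hfn]
  -- the Gram matrices
  have hgram : ∀ k i j, (κᵀ * gr k (2 * g + 1) (fk K f) α * κ) i j =
      algebraMap R K (tau f (X ^ k * β * (Bv g U E i * Bv g U E j))) /
        algebraMap R K d ^ (te g i + te g j) := by
    intro k i j
    rw [hκ, gram hfK hfKn (by omega)]
    have h1 : tau (fk K f) (X ^ k * α * (b i * b j)) =
        tau (fk K f) (C ((algebraMap R K d ^ te g i)⁻¹ * (algebraMap R K d ^ te g j)⁻¹) *
          fk K (X ^ k * β * (Bv g U E i * Bv g U E j))) := by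
      apply tau_congr hfK
      obtain ⟨w, hw⟩ := hβ
      refine ⟨C ((algebraMap R K d ^ te g i)⁻¹ * (algebraMap R K d ^ te g j)⁻¹) * X ^ k *
        fk K (Bv g U E i) * fk K (Bv g U E j) * w, ?_⟩
      have e1 : fk K (X ^ k * β * (Bv g U E i * Bv g U E j)) =
          X ^ k * fk K β * (fk K (Bv g U E i) * fk K (Bv g U E j)) := by
        show Polynomial.map _ _ = _
        rw [Polynomial.map_mul, Polynomial.map_mul, Polynomial.map_mul, Polynomial.map_pow,
          map_X]
      rw [e1, hb, C_mul]
      linear_combination (C (algebraMap R K d ^ te g i)⁻¹ * C (algebraMap R K d ^ te g j)⁻¹ *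
        X ^ k * fk K (Bv g U E i) * fk K (Bv g U E j)) * hw
    rw [h1, tau_C_mul, Pool.HYP.tau_map _ hf, pow_add]
    field_simp
  -- approximation
  have hrp : ∀ (m t : ℕ) (z : R), z ∈ P.asIdeal ^ m → t ≤ m →
      algebraMap R K z / algebraMap R K d ^ t ∈ RP K P := by
    intro m t z hz ht
    exact rp_pow hd hd2 (Ideal.pow_le_pow_right ht hz)
  have hte : ∀ i, te g i ≤ 1 := by
    intro i
    unfold te
    split_ifs <;> omega
  have hG : ∀ i j, ((κᵀ * gr 0 (2 * g + 1) (fk K f) α * κ) i j -
      algebraMap R K (GG g d γ' e i j)) / algebraMap R K d ^ 3 ∈ RP K P := by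
    intro i j
    rw [hgram]
    have ht : te g i + te g j ≤ 2 := by
      have := hte i
      have := hte j
      omega
    by_cases h1 : (i : ℕ) = g
    · have ei : te g i = 0 := by rw [te, if_neg (by omega)]
      by_cases h3 : (j : ℕ) = g
      · have ej : te g j = 0 := by rw [te, if_neg (by omega)]
        have h4 : GG g d γ' e i j = e := by simp [GG, h1, h3]
        have h5 : tau f (X ^ 0 * β * (Bv g U E i * Bv g U E j)) = e := by
          rw [he, Bv, Bv, if_pos h1, if_pos h3]
          congr 1
          ring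
        rw [h4, h5, ei, ej, add_zero, pow_zero, div_one, sub_self, zero_div]
        exact rp_zero
      · have h4 : GG g d γ' e i j = 0 := by simp [GG, h1, h3]
        have h5 : tau f (X ^ 0 * β * (Bv g U E i * Bv g U E j)) =
            tau f (β * U * E * X ^ ae g j) := by
          rw [Bv, Bv, if_pos h1, if_neg h3]
          congr 1
          ring
        rw [h4, h5, map_zero, sub_zero, div_div, ← pow_add]
        exact hrp 8 _ _ (n2 _) (by omega)
    · by_cases h3 : (j : ℕ) = g
      · have h4 : GG g d γ' e i j = 0 := by simp [GG, h1, h3]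
        have h5 : tau f (X ^ 0 * β * (Bv g U E i * Bv g U E j)) =
            tau f (β * U * E * X ^ ae g i) := by
          rw [Bv, Bv, if_neg h1, if_pos h3]
          congr 1
          ring
        rw [h4, h5, map_zero, sub_zero, div_div, ← pow_add]
        exact hrp 8 _ _ (n2 _) (by omega)
      · have h5 : tau f (X ^ 0 * β * (Bv g U E i * Bv g U E j)) =
            tau f (β * U ^ 2 * X ^ (ae g i + ae g j)) := by
          rw [Bv, Bv, if_neg h1, if_neg h3]
          congr 1
          ring
        have h6 := n1 (ae g i + ae g j)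
        by_cases h7 : te g i + te g j = 2
        · have h4 : GG g d γ' e i j = 0 := by simp [GG, h1, h3, h7]
          have h8 : ae g i + ae g j + 1 < 2 * g := by
            unfold te at h7
            unfold ae
            split_ifs at h7 ⊢ <;> omega
          rw [tau_X_pow hγ'm (by omega),
            if_neg (show ¬ (ae g i + ae g j + 1 = γ'.natDegree) by omega), mul_zero,
            add_zero] at h6
          rw [h4, h5, map_zero, sub_zero, div_div, ← pow_add]
          exact hrp 8 _ _ h6 (by omega)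
        · have h4 : GG g d γ' e i j = -(d ^ (1 - (te g i + te g j)) *
            tau γ' (X ^ (ae g i + ae g j))) := by simp [GG, h1, h3, h7]
          have h8 := hrp 8 (te g i + te g j + 3) _ h6 (by omega)
          have h9 : (algebraMap R K (tau f (β * U ^ 2 * X ^ (ae g i + ae g j))) /
              algebraMap R K d ^ (te g i + te g j) -
              algebraMap R K (-(d ^ (1 - (te g i + te g j)) *
                tau γ' (X ^ (ae g i + ae g j))))) / algebraMap R K d ^ 3 =
              algebraMap R K (tau f (β * U ^ 2 * X ^ (ae g i + ae g j)) +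
                d * tau γ' (X ^ (ae g i + ae g j))) /
                algebraMap R K d ^ (te g i + te g j + 3) := by
            rw [map_neg, map_mul, map_add, map_mul, map_pow, pow_add _ _ 3]
            have h10 : algebraMap R K d = algebraMap R K d ^ (1 - (te g i + te g j)) *
                algebraMap R K d ^ (te g i + te g j) := by
              rw [← pow_add]
              have : 1 - (te g i + te g j) + (te g i + te g j) = 1 := by omega
              rw [this, pow_one]
            generalize algebraMap R K (tau f (β * U ^ 2 * X ^ (ae g i + ae g j))) = A at *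
            generalize algebraMap R K (tau γ' (X ^ (ae g i + ae g j))) = B at *
            have h11 : algebraMap R K d ^ (te g i + te g j) ≠ 0 := pow_ne_zero _ hd0
            have h12 : algebraMap R K d * B = algebraMap R K d ^ (1 - (te g i + te g j)) *
                algebraMap R K d ^ (te g i + te g j) * B := by rw [← h10]
            rw [h12]
            field_simp
            ring
          rw [h4, h5, h9]
          exact h8
  have hS : ∀ i j, (algebraMap R K d * (κᵀ * gr 1 (2 * g + 1) (fk K f) α * κ) i j -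
      algebraMap R K (SS g d γ' e' i j)) / algebraMap R K d ^ 3 ∈ RP K P := by
    intro i j
    rw [hgram]
    have ht : te g i + te g j ≤ 2 := by
      have := hte i
      have := hte j
      omega
    have hdm : algebraMap R K d ∈ RP K P := rp_alg d
    by_cases h1 : (i : ℕ) = g
    · have ei : te g i = 0 := by rw [te, if_neg (by omega)]
      by_cases h3 : (j : ℕ) = g
      · have ej : te g j = 0 := by rw [te, if_neg (by omega)]
        have h4 : SS g d γ' e' i j = d * e' := by simp [SS, h1, h3]
        have h5 : tau f (X ^ 1 * β * (Bv g U E i * Bv g U E j)) = e' := by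
          rw [he', Bv, Bv, if_pos h1, if_pos h3]
          congr 1
          ring
        rw [h4, h5, ei, ej, add_zero, pow_zero, div_one, map_mul, sub_self, zero_div]
        exact rp_zero
      · have h4 : SS g d γ' e' i j = 0 := by simp [SS, h1, h3]
        have h5 : tau f (X ^ 1 * β * (Bv g U E i * Bv g U E j)) =
            tau f (β * U * E * X ^ (ae g j + 1)) := by
          rw [Bv, Bv, if_pos h1, if_neg h3]
          congr 1
          ring
        rw [h4, h5, map_zero, sub_zero, mul_div_assoc, div_div, ← pow_add]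
        exact rp_mul hdm (hrp 8 _ _ (n2 _) (by omega))
    · by_cases h3 : (j : ℕ) = g
      · have h4 : SS g d γ' e' i j = 0 := by simp [SS, h1, h3]
        have h5 : tau f (X ^ 1 * β * (Bv g U E i * Bv g U E j)) =
            tau f (β * U * E * X ^ (ae g i + 1)) := by
          rw [Bv, Bv, if_neg h1, if_pos h3]
          congr 1
          ring
        rw [h4, h5, map_zero, sub_zero, mul_div_assoc, div_div, ← pow_add]
        exact rp_mul hdm (hrp 8 _ _ (n2 _) (by omega))
      · have h5 : tau f (X ^ 1 * β * (Bv g U E i * Bv g U E j)) =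
            tau f (β * U ^ 2 * X ^ (ae g i + ae g j + 1)) := by
          rw [Bv, Bv, if_neg h1, if_neg h3]
          congr 1
          ring
        have h6 := n1 (ae g i + ae g j + 1)
        have h4 : SS g d γ' e' i j = -(d ^ (2 - (te g i + te g j)) *
            tau γ' (X ^ (ae g i + ae g j + 1))) := by simp [SS, h1, h3]
        have h8 := hrp 8 (te g i + te g j + 3) _ h6 (by omega)
        have h9 : (algebraMap R K d * (algebraMap R K
            (tau f (β * U ^ 2 * X ^ (ae g i + ae g j + 1))) /
            algebraMap R K d ^ (te g i + te g j)) -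
            algebraMap R K (-(d ^ (2 - (te g i + te g j)) *
              tau γ' (X ^ (ae g i + ae g j + 1))))) / algebraMap R K d ^ 3 =
            algebraMap R K d * (algebraMap R K
              (tau f (β * U ^ 2 * X ^ (ae g i + ae g j + 1)) +
              d * tau γ' (X ^ (ae g i + ae g j + 1))) /
              algebraMap R K d ^ (te g i + te g j + 3)) := by
          rw [map_neg, map_mul, map_add, map_mul, map_pow,
            pow_add (algebraMap R K d) (te g i + te g j) 3]
          have h10 : algebraMap R K d ^ 2 = algebraMap R K d ^ (2 - (te g i + te g j)) *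
              algebraMap R K d ^ (te g i + te g j) := by
            rw [← pow_add]
            have : 2 - (te g i + te g j) + (te g i + te g j) = 2 := by omega
            rw [this]
          generalize algebraMap R K (tau f (β * U ^ 2 * X ^ (ae g i + ae g j + 1))) = A at *
          generalize algebraMap R K (tau γ' (X ^ (ae g i + ae g j + 1))) = B at *
          have h11 : algebraMap R K d ^ (te g i + te g j) ≠ 0 := pow_ne_zero _ hd0
          have h12 : algebraMap R K d * (A + algebraMap R K d * B) =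
              algebraMap R K d * A + algebraMap R K d ^ (2 - (te g i + te g j)) *
              algebraMap R K d ^ (te g i + te g j) * B := by rw [← h10]; ring
          have h13 : algebraMap R K d * ((A + algebraMap R K d * B) /
              (algebraMap R K d ^ (te g i + te g j) * algebraMap R K d ^ 3)) =
              (algebraMap R K d * A + algebraMap R K d ^ (2 - (te g i + te g j)) *
              algebraMap R K d ^ (te g i + te g j) * B) /
              (algebraMap R K d ^ (te g i + te g j) * algebraMap R K d ^ 3) := by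
            rw [← h12, mul_div_assoc]
          rw [h13]
          field_simp
          ring
        rw [h4, h5, h9]
        exact rp_mul hdm h8
  -- the determinant
  have hGd := GG_det (P := P.asIdeal) P.isPrime hd hγ'm hγ'n n3
  have hGrp : ∀ i j, (κᵀ * gr 0 (2 * g + 1) (fk K f) α * κ) i j ∈ O := by
    intro i j
    rw [← hmem]
    have h1 : (κᵀ * gr 0 (2 * g + 1) (fk K f) α * κ) i j =
        algebraMap R K (GG g d γ' e i j) + algebraMap R K (d ^ 3) *
        (((κᵀ * gr 0 (2 * g + 1) (fk K f) α * κ) i j -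
          algebraMap R K (GG g d γ' e i j)) / algebraMap R K d ^ 3) := by
      rw [map_pow]
      field_simp
      ring
    rw [h1]
    exact rp_add (rp_alg _) (rp_mul (rp_alg _) (hG i j))
  have hdet : UI (O : Set K) (κᵀ * gr 0 (2 * g + 1) (fk K f) α * κ).det := by
    have h1 : ((GG g d γ' e).map (algebraMap R K)).det = algebraMap R K (GG g d γ' e).det := by
      rw [RingHom.map_det]
      rfl
    refine Pool.T1.H22.ui_add O hU (x := algebraMap R K (GG g d γ' e).det) ?_
      (Pool.T1.H22.det_mem O _ hGrp) ?_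
    · refine ⟨alg_ne fun h => hGd (by rw [h]; exact Ideal.zero_mem _), ?_, ?_⟩
      · exact (hmem _).1 (rp_alg _)
      · exact (hmem _).1 (rp_inv hGd)
    · rw [← h1]
      refine Pool.T1.H22.det_cong O hU.1 hU.2.1 _ _ hGrp (fun i j => (hmem _).1 (rp_alg _)) ?_
      intro i j
      rw [← hmem]
      have h3 : ((κᵀ * gr 0 (2 * g + 1) (fk K f) α * κ) i j -
          (GG g d γ' e).map (algebraMap R K) i j) / algebraMap R K d =
          algebraMap R K (d ^ 2) * (((κᵀ * gr 0 (2 * g + 1) (fk K f) α * κ) i j -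
          algebraMap R K (GG g d γ' e i j)) / algebraMap R K d ^ 3) := by
        rw [map_pow]
        show ((κᵀ * gr 0 (2 * g + 1) (fk K f) α * κ) i j -
          algebraMap R K (GG g d γ' e i j)) / algebraMap R K d = _
        field_simp
      rw [h3]
      exact rp_mul (rp_alg _) (hG i j)
  refine ⟨κ, GG g d γ' e, SS g d γ' e', ?_, ⟨?_, ?_⟩, GG_symm _ _ _ _, SS_symm _ _ _ _, hG, hS,
    blkd hd hd2 hγ.1 hγ'm hγγ n3 n4⟩
  · intro h0
    apply hdet.1
    rw [Matrix.det_mul, h0, mul_zero]
  · intro i j
    rw [hmem]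
    exact hGrp i j
  · rw [← hO]
    exact hdet

end Pool.PRK
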