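import Pool.Agent.H79.PRK.S1
import Pool.Agent.H6.HYP.SQI
import Pool.Agent.H93.HYP.LattA
import Pool.Agent.H30.T1.Loc

/-!
# PRK, LRMK (part 1): arithmetic modulo powers of a prime
-/

set_option autoImplicit false

namespace Pool.PRK.H22

open Polynomial Matrix Pool.HYP Pool.TOW Pool.AVS Pool.T1 Pool.PRK IsDedekindDomain

section Zer

variable {R : Type} [CommRing R]

theorem zer_iff (I : Ideal R) (p : R[X]) : Zer I p ↔ md I p = 0 := by
  constructor
  · intro h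
    ext i
    rw [coeff_map, coeff_zero, Ideal.Quotient.eq_zero_iff_mem]
    exact h i
  · intro h i
    rw [← Ideal.Quotient.eq_zero_iff_mem, ← coeff_map]
    have := congrArg (fun q => q.coeff i) h
    rwa [coeff_zero] at this

theorem zer_add {I : Ideal R} {p q : R[X]} (hp : Zer I p) (hq : Zer I q) : Zer I (p + q) := by
  intro i
  rw [coeff_add]
  exact I.add_mem (hp i) (hq i)

theorem zer_neg {I : Ideal R} {p : R[X]} (hp : Zer I p) : Zer I (-p) := by
  intro i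
  rw [coeff_neg]
  exact I.neg_mem (hp i)

theorem zer_mul {I : Ideal R} {p : R[X]} (hp : Zer I p) (q : R[X]) : Zer I (p * q) := by
  rw [zer_iff] at hp ⊢
  show (p * q).map _ = 0
  rw [Polynomial.map_mul]
  have : p.map (Ideal.Quotient.mk I) = 0 := hp
  rw [this, zero_mul]

theorem zer_mono {I J : Ideal R} (h : I ≤ J) {p : R[X]} (hp : Zer I p) : Zer J p :=
  fun i => h (hp i)

theorem zer_eval {I : Ideal R} {p : R[X]} (hp : Zer I p) (c : R) : p.eval c ∈ I := by
  rw [Polynomial.eval_eq_sum]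
  exact I.sum_mem fun i _ => I.mul_mem_right _ (hp i)

theorem tau_zer {I : Ideal R} {γ : R[X]} (hγ : γ.Monic) {Z : R[X]} (hZ : Zer I Z) :
    tau γ Z ∈ I := by
  by_cases hI : I = ⊤
  · rw [hI]
    trivial
  have := Ideal.Quotient.nontrivial_iff.2 hI
  have h1 := Pool.HYP.tau_map (Ideal.Quotient.mk I) hγ Z
  have h2 : Z.map (Ideal.Quotient.mk I) = 0 := (zer_iff I Z).1 hZ
  rw [h2, tau_zero] at h1
  exact Ideal.Quotient.eq_zero_iff_mem.1 h1.symm

theorem tau_close {I : Ideal R} {γ γ' : R[X]} (hγ : γ.Monic) (hγ' : γ'.Monic)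
    (hZ : Zer I (γ' - γ)) (n : ℕ) : tau γ (X ^ n) - tau γ' (X ^ n) ∈ I := by
  by_cases hI : I = ⊤
  · rw [hI]
    trivial
  have := Ideal.Quotient.nontrivial_iff.2 hI
  have h1 := Pool.HYP.tau_map (Ideal.Quotient.mk I) hγ (X ^ n)
  have h2 := Pool.HYP.tau_map (Ideal.Quotient.mk I) hγ' (X ^ n)
  have h3 : γ'.map (Ideal.Quotient.mk I) = γ.map (Ideal.Quotient.mk I) := by
    have h4 := (zer_iff I _).1 hZ
    have h5 : (γ' - γ).map (Ideal.Quotient.mk I) = 0 := h4
    rw [Polynomial.map_sub] at h5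
    exact sub_eq_zero.1 h5
  rw [h3] at h2
  rw [← Ideal.Quotient.eq, ← h1, ← h2]

end Zer

section Powers

variable {R : Type} [CommRing R] [IsDedekindDomain R] {P : HeightOneSpectrum R} {d : R}

theorem sup_pow_eq (hd : d ∈ P.asIdeal) (hd2 : d ∉ P.asIdeal ^ 2) (m : ℕ) :
    Ideal.span {d} ⊔ P.asIdeal ^ (m + 1) = P.asIdeal := by
  have hpr : Prime P.asIdeal := P.prime
  have h1 : Ideal.span {d} ⊔ P.asIdeal ^ (m + 1) ≤ P.asIdeal :=
    sup_le ((Ideal.span_singleton_le_iff_mem _).2 hd) (Ideal.pow_le_self (Nat.succ_ne_zero m))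
  have h2 : (Ideal.span {d} ⊔ P.asIdeal ^ (m + 1)) ∣ P.asIdeal ^ (m + 1) :=
    Ideal.dvd_iff_le.2 le_sup_right
  obtain ⟨i, -, hi⟩ := (dvd_prime_pow hpr _).1 h2
  rw [associated_iff_eq] at hi
  rw [hi] at h1 ⊢
  have hdi : d ∈ P.asIdeal ^ i := by
    rw [← hi]
    exact Ideal.mem_sup_left (Ideal.mem_span_singleton_self d)
  rcases Nat.lt_or_ge i 1 with h3 | h3
  · have : i = 0 := by omega
    subst this
    rw [pow_zero, Ideal.one_eq_top] at h1
    exact absurd (top_le_iff.1 h1) P.isPrime.ne_top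
  · rcases Nat.lt_or_ge i 2 with h4 | h4
    · have : i = 1 := by omega
      rw [this, pow_one]
    · exact absurd (Ideal.pow_le_pow_right h4 hdi) hd2

theorem dvd_mk (hd : d ∈ P.asIdeal) (hd2 : d ∉ P.asIdeal ^ 2) {k m : ℕ} {z : R}
    (hz : z ∈ P.asIdeal ^ k) :
    Ideal.Quotient.mk (P.asIdeal ^ (m + 1)) d ^ k ∣ Ideal.Quotient.mk (P.asIdeal ^ (m + 1)) z := by
  have h1 : P.asIdeal.map (Ideal.Quotient.mk (P.asIdeal ^ (m + 1))) =
      Ideal.span {Ideal.Quotient.mk (P.asIdeal ^ (m + 1)) d} := by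
    have h0 := congrArg (Ideal.map (Ideal.Quotient.mk (P.asIdeal ^ (m + 1))))
      (sup_pow_eq hd hd2 m)
    rw [Ideal.map_sup, Ideal.map_quotient_self, sup_bot_eq, Ideal.map_span,
      Set.image_singleton] at h0
    exact h0.symm
  have h2 := Ideal.mem_map_of_mem (Ideal.Quotient.mk (P.asIdeal ^ (m + 1))) hz
  rw [Ideal.map_pow, h1, Ideal.span_singleton_pow, Ideal.mem_span_singleton] at h2
  exact h2

theorem approx (hd : d ∈ P.asIdeal) (hd2 : d ∉ P.asIdeal ^ 2) (m : ℕ) {z : R}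
    (hz : z ∈ P.asIdeal) : ∃ w : R, z - d * w ∈ P.asIdeal ^ (m + 1) := by
  have h1 := dvd_mk hd hd2 (k := 1) (m := m) (z := z) (by rwa [pow_one])
  rw [pow_one] at h1
  obtain ⟨w, hw⟩ := h1
  obtain ⟨w, rfl⟩ := Ideal.Quotient.mk_surjective w
  refine ⟨w, ?_⟩
  rw [← Ideal.Quotient.eq, hw, map_mul]

theorem approx_poly (hd : d ∈ P.asIdeal) (hd2 : d ∉ P.asIdeal ^ 2) (m : ℕ) {q : R[X]}
    (hq : Zer P.asIdeal q) : ∃ w : R[X], Zer (P.asIdeal ^ (m + 1)) (q - C d * w) := by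
  classical
  choose w hw using fun i => approx hd hd2 m (hq i)
  refine ⟨∑ i ∈ q.support, monomial i (w i), fun j => ?_⟩
  rw [coeff_sub, coeff_C_mul, finsetSum_coeff]
  by_cases hj : j ∈ q.support
  · rw [Finset.sum_eq_single j]
    · rw [coeff_monomial, if_pos rfl]
      exact hw j
    · intro i _ hij
      rw [coeff_monomial, if_neg hij]
    · intro h
      exact absurd hj h
  · rw [Finset.sum_eq_zero, mul_zero, sub_zero, notMem_support_iff.1 hj]
    · exact Ideal.zero_mem _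
    · intro i hi
      rw [coeff_monomial, if_neg]
      rintro rfl
      exact hj hi

theorem rp_pow {K : Type} [Field K] [Algebra R K] [IsFractionRing R K] (hd : d ∈ P.asIdeal)
    (hd2 : d ∉ P.asIdeal ^ 2) {k : ℕ} {z : R} (hz : z ∈ P.asIdeal ^ k) :
    algebraMap R K z / algebraMap R K d ^ k ∈ RP K P := by
  have h1 : P.asIdeal ∣ Ideal.span {d} :=
    Ideal.dvd_iff_le.2 ((Ideal.span_singleton_le_iff_mem _).2 hd)
  obtain ⟨J, hJ⟩ := h1
  have h2 : ¬ J ≤ P.asIdeal := by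
    intro h3
    apply hd2
    have h4 : Ideal.span {d} ≤ P.asIdeal ^ 2 := by
      rw [hJ, pow_two]
      exact Ideal.mul_mono_right h3
    exact h4 (Ideal.mem_span_singleton_self d)
  obtain ⟨m, hm, hmP⟩ := SetLike.not_le_iff_exists.1 h2
  have h3 : m ^ k * z ∈ Ideal.span {d ^ k} := by
    rw [← Ideal.span_singleton_pow, hJ, mul_pow, mul_comm (P.asIdeal ^ k)]
    exact Ideal.mul_mem_mul (Ideal.pow_mem_pow hm k) hz
  obtain ⟨a, ha⟩ := Ideal.mem_span_singleton.1 h3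
  have hd0 : algebraMap R K d ≠ 0 := alg_ne fun h => hd2 (by rw [h]; exact Ideal.zero_mem _)
  refine ⟨m ^ k, fun h => hmP (P.isPrime.mem_of_pow_mem k h), a, ?_⟩
  rw [← mul_div_assoc, ← map_mul, ha, map_mul, map_pow, mul_div_cancel_left₀]
  exact pow_ne_zero _ hd0

end Powers

end Pool.PRK.H22
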