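import Pool.Agent.H22.PRK.LRMKa

/-!
# PRK, LRMK (part 2): the elements of the basis
-/

set_option autoImplicit false

namespace Pool.PRK.H22

open Polynomial Matrix Pool.HYP Pool.TOW Pool.AVS Pool.T1 Pool.PRK IsDedekindDomain

theorem no_root {k : Type} [Field k] {γ : k[X]} (hi : Irreducible γ) (h2 : 2 ≤ γ.natDegree)
    (c : k) : γ.eval c ≠ 0 := by
  intro h
  have h1 := degree_eq_one_of_irreducible_of_root hi h
  have h3 : γ.natDegree = 1 := natDegree_eq_of_degree_eq_some h1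
  omega

variable {R : Type} [CommRing R] [IsDedekindDomain R] {K : Type} [Field K] [Algebra R K]
  [IsFractionRing R K]

theorem inv_mod {P : HeightOneSpectrum R} {w : R} (hw : w ∉ P.asIdeal) :
    ∃ u : R, Ideal.Quotient.mk P.asIdeal w * Ideal.Quotient.mk P.asIdeal u = 1 := by
  have := P.isMaximal
  obtain ⟨u, hu⟩ := Ideal.Quotient.exists_inv (I := P.asIdeal)
    (a := Ideal.Quotient.mk P.asIdeal w) (fun h => hw (Ideal.Quotient.eq_zero_iff_mem.1 h))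
  obtain ⟨u, rfl⟩ := Ideal.Quotient.mk_surjective u
  exact ⟨u, hu⟩

theorem mem_of_dmul {P : HeightOneSpectrum R} {d w : R} (hd : d ∈ P.asIdeal)
    (hd2 : d ∉ P.asIdeal ^ 2) (h : d * w ∈ P.asIdeal ^ 2) : w ∈ P.asIdeal := by
  by_contra hw
  obtain ⟨u, hu⟩ := inv_mod hw
  apply hd2
  have h1 : w * u - 1 ∈ P.asIdeal := by
    rw [← Ideal.Quotient.eq, map_mul, hu, map_one]
  have h2 : d = d * w * u - d * (w * u - 1) := by ring
  rw [h2]
  refine Ideal.sub_mem _ (Ideal.mul_mem_right _ _ h) ?_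
  rw [pow_two]
  exact Ideal.mul_mem_mul hd h1

omit [IsDedekindDomain R] in
theorem zer_sq {I : Ideal R} {p : R[X]} (hp : Zer I p) : Zer (I ^ 2) (p ^ 2) := by
  intro i
  rw [pow_two, pow_two, coeff_mul]
  exact Ideal.sum_mem _ fun x _ => Ideal.mul_mem_mul (hp _) (hp _)

theorem lrmk_data (hHEN : HENKStmt) (hTAU : TAUKStmt) (hSQV : SQVKStmt) (hNRM : NRMKStmt)
    (P : HeightOneSpectrum R) (h2 : (2 : R) ∉ P.asIdeal) (hfin : Finite (R ⧸ P.asIdeal))
    {ϖ d c : R} {γ f : R[X]} {g : ℕ} {α : K[X]} (hg : 1 ≤ g) (hf : f.Monic)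
    (hfn : f.natDegree = 2 * g + 1) (hϖ : ϖ ∈ P.asIdeal) (hϖ2 : ϖ ∉ P.asIdeal ^ 2)
    (hd : d ∈ P.asIdeal) (hd2 : d ∉ P.asIdeal ^ 2) (hγ : OkP (2 * g) P.asIdeal γ)
    (hfac : Zer P.asIdeal (f - (X - C c) * γ)) (hα : IsCoprime α (fk K f))
    (hN : NSq (fk K f) α) (hty : TyK P.asIdeal ϖ c γ f (1, 0) α) :
    ∃ (s : K[X]) (β v γ' : R[X]) (c' e₀ : R), IsCoprime s (fk K f) ∧
      fk K f ∣ α * s ^ 2 - fk K β ∧ γ'.Monic ∧ γ'.natDegree = 2 * g ∧
      Zer P.asIdeal (γ' - γ) ∧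
      (∀ n : ℕ, tau f (β * ((X - C c') * v) ^ 2 * X ^ n) + d * tau γ' (X ^ n) ∈
        P.asIdeal ^ 8) ∧
      (∀ n : ℕ, tau f (β * ((X - C c') * v) * (γ' * C e₀) * X ^ n) ∈ P.asIdeal ^ 8) ∧
      tau f (β * (γ' * C e₀) ^ 2) - 1 ∈ P.asIdeal ∧
      tau f (β * (γ' * C e₀) ^ 2 * X) - c ∈ P.asIdeal := by
  obtain ⟨s, p, hs, hsp, hpf, hsq⟩ := hty
  have hv1 : (1 : ZMod 2).val = 1 := rfl
  obtain ⟨-, hnr⟩ := hNRM R K P h2 hfin ϖ c γ f g α hg hf hfn hϖ hϖ2 hγ hfac hα hN (1, 0) s p hs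
    hsp hpf
  have hsq' : IsSquare (Ideal.Quotient.mk P.asIdeal (p.eval c * γ.eval c)) := by
    have h1 := hsq.1 rfl
    have h3 : ((1, 0) : Ty).1.val = 1 := rfl
    rwa [h3, pow_one] at h1
  obtain ⟨c', γ', hγ'm, hγ'n, hc', hγγ, hfac'⟩ := hHEN R P c γ f g hg hf hγ hfac 8
  have hle8 : P.asIdeal ^ 8 ≤ P.asIdeal := Ideal.pow_le_self (by norm_num)
  have hle82 : P.asIdeal ^ 8 ≤ P.asIdeal ^ 2 := Ideal.pow_le_pow_right (by norm_num)
  obtain ⟨ε, hε⟩ : ∃ ε : R[X], ε = γ - γ' := ⟨_, rfl⟩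
  have hεZ : Zer P.asIdeal ε := by
    have := zer_neg hγγ
    rwa [neg_sub, ← hε] at this
  have hε2 : Zer (P.asIdeal ^ 2) (ε ^ 2) := zer_sq hεZ
  have hq0 : Zer P.asIdeal (C ϖ + ε ^ 2) := by
    refine zer_add (fun i => ?_) (zer_mono (Ideal.pow_le_self (by norm_num)) hε2)
    rw [coeff_C]
    split_ifs
    · exact hϖ
    · exact Ideal.zero_mem _
  obtain ⟨w₁, hw₁⟩ := approx_poly hd hd2 7 hq0
  have hw0 : w₁.coeff 0 ∉ P.asIdeal := by
    intro h
    apply hϖ2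
    have h1 := hle82 (hw₁ 0)
    rw [coeff_sub, coeff_add, coeff_C_mul, coeff_C_zero] at h1
    have h3 : ϖ = (ϖ + (ε ^ 2).coeff 0 - d * w₁.coeff 0) + d * w₁.coeff 0 -
        (ε ^ 2).coeff 0 := by ring
    rw [h3]
    refine Ideal.sub_mem _ (Ideal.add_mem _ h1 ?_) (hε2 0)
    rw [pow_two]
    exact Ideal.mul_mem_mul hd h
  have hwi : ∀ i, i ≠ 0 → w₁.coeff i ∈ P.asIdeal := by
    intro i hi
    apply mem_of_dmul hd hd2
    have h1 := hle82 (hw₁ i)
    rw [coeff_sub, coeff_add, coeff_C_mul, coeff_C, if_neg hi, zero_add] at h1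
    have h3 : d * w₁.coeff i = (ε ^ 2).coeff i - ((ε ^ 2).coeff i - d * w₁.coeff i) := by ring
    rw [h3]
    exact Ideal.sub_mem _ (hε2 i) h1
  obtain ⟨w, hw⟩ : ∃ w : R, w = w₁.coeff 0 := ⟨_, rfl⟩
  rw [← hw] at hw0
  have hw1C : md P.asIdeal w₁ = C (Ideal.Quotient.mk P.asIdeal w) := by
    ext i
    rw [coeff_map, coeff_C]
    split_ifs with h
    · rw [h, hw]
    · exact Ideal.Quotient.eq_zero_iff_mem.2 (hwi i h)
  have hcc : Ideal.Quotient.mk P.asIdeal c' = Ideal.Quotient.mk P.asIdeal c :=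
    Ideal.Quotient.eq.2 hc'
  have hγγ' : md P.asIdeal γ' = md P.asIdeal γ := by
    have h1 := (zer_iff _ _).1 hγγ
    have h3 : (γ' - γ).map (Ideal.Quotient.mk P.asIdeal) = 0 := h1
    rw [Polynomial.map_sub] at h3
    exact sub_eq_zero.1 h3
  have hff : md P.asIdeal f = (X - C (Ideal.Quotient.mk P.asIdeal c)) * md P.asIdeal γ := by
    have h1 := (zer_iff _ _).1 hfac
    have h3 : (f - (X - C c) * γ).map (Ideal.Quotient.mk P.asIdeal) = 0 := h1
    rw [Polynomial.map_sub, Polynomial.map_mul, Polynomial.map_sub, map_X, map_C] at h3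
    exact sub_eq_zero.1 h3
  -- values at `c`
  have hntR : Nontrivial (R ⧸ P.asIdeal) := Ideal.Quotient.nontrivial_iff.2 P.isPrime.ne_top
  have hγc : Ideal.Quotient.mk P.asIdeal (γ.eval c) ≠ 0 := by
    have h1 : (md P.asIdeal γ).natDegree = 2 * g := by
      rw [hγ.1.natDegree_map, hγ.2.1]
    have := P.isMaximal
    let := Ideal.Quotient.field P.asIdeal
    have h3 := no_root (γ := md P.asIdeal γ) hγ.2.2 (by rw [h1]; omega)
      (Ideal.Quotient.mk P.asIdeal c)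
    rw [eval_map_apply] at h3
    exact h3
  have hpc : Ideal.Quotient.mk P.asIdeal (p.eval c) ≠ 0 := by
    obtain ⟨a, b, hab⟩ := hpf
    intro h0
    have h1 := congrArg (eval (Ideal.Quotient.mk P.asIdeal c)) hab
    rw [eval_add, eval_mul, eval_mul, hff, eval_mul, eval_sub, eval_X, eval_C, sub_self,
      zero_mul, mul_zero, add_zero, eval_map_apply, h0, mul_zero, eval_one] at h1
    exact zero_ne_one h1
  -- coprimality
  have hcop1 : IsCoprime (md P.asIdeal p) (md P.asIdeal γ) :=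
    hpf.of_isCoprime_of_dvd_right ⟨X - C (Ideal.Quotient.mk P.asIdeal c), by rw [hff]; ring⟩
  have hcop2 : IsCoprime (X - C (Ideal.Quotient.mk P.asIdeal c)) (md P.asIdeal γ) := by
    have h1 : γ.eval c ∉ P.asIdeal := fun h => hγc (Ideal.Quotient.eq_zero_iff_mem.2 h)
    obtain ⟨u, hu⟩ := inv_mod h1
    obtain ⟨q, hq⟩ := X_sub_C_dvd_sub_C_eval (a := Ideal.Quotient.mk P.asIdeal c)
      (p := md P.asIdeal γ)
    rw [eval_map_apply] at hq
    refine ⟨-(C (Ideal.Quotient.mk P.asIdeal u) * q), C (Ideal.Quotient.mk P.asIdeal u), ?_⟩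
    have h3 : C (Ideal.Quotient.mk P.asIdeal u) * C (Ideal.Quotient.mk P.asIdeal (γ.eval c)) =
        (1 : (R ⧸ P.asIdeal)[X]) := by
      rw [← C_mul, mul_comm, hu, C_1]
    linear_combination C (Ideal.Quotient.mk P.asIdeal u) * hq + h3
  have hcop3 : IsCoprime (C (Ideal.Quotient.mk P.asIdeal w)) (md P.asIdeal γ) := by
    obtain ⟨u, hu⟩ := inv_mod hw0
    refine ⟨C (Ideal.Quotient.mk P.asIdeal u), 0, ?_⟩
    rw [← C_mul, mul_comm, hu, C_1, zero_mul, add_zero]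
  obtain ⟨q, hq⟩ : ∃ q : R[X], q = -(w₁ * p * (X - C c')) := ⟨_, rfl⟩
  have hqmd : md P.asIdeal q = md P.asIdeal (-(C w * p * (X - C c))) := by
    rw [hq]
    show Polynomial.map _ _ = Polynomial.map _ _
    rw [Polynomial.map_neg, Polynomial.map_neg, Polynomial.map_mul, Polynomial.map_mul,
      Polynomial.map_mul, Polynomial.map_mul, Polynomial.map_sub, Polynomial.map_sub, map_X,
      map_C, map_C, map_C, hcc]
    have h1 : w₁.map (Ideal.Quotient.mk P.asIdeal) = C (Ideal.Quotient.mk P.asIdeal w) := hw1C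
    rw [h1]
  obtain ⟨q', hq'⟩ := hnr.1 hsq' w hw0
  obtain ⟨s', rfl⟩ := Polynomial.map_surjective (Ideal.Quotient.mk P.asIdeal)
    Ideal.Quotient.mk_surjective q'
  obtain ⟨v, a, hva⟩ := hSQV R P γ' q s' h2 hγ'm (by
      rw [hγγ', hq]
      show IsCoprime (Polynomial.map _ _) _
      rw [Polynomial.map_neg, Polynomial.map_mul, Polynomial.map_mul, Polynomial.map_sub, map_X,
        map_C, hcc]
      have h1 : w₁.map (Ideal.Quotient.mk P.asIdeal) = C (Ideal.Quotient.mk P.asIdeal w) := hw1C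
      rw [h1]
      exact ((hcop3.mul_left hcop1).mul_left hcop2).neg_left) (by
      rw [hγγ']
      have h1 : md P.asIdeal (q - s' ^ 2) =
          md P.asIdeal (-(C w * p * (X - C c))) - (s'.map (Ideal.Quotient.mk P.asIdeal)) ^ 2 := by
        rw [← hqmd]
        show Polynomial.map _ _ = _
        rw [Polynomial.map_sub, Polynomial.map_pow]
      rw [h1]
      exact hq') 8
  -- the vector at `c`
  obtain ⟨r, hr⟩ := hsq'
  have hr0 : r ≠ 0 := by
    rintro rfl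
    rw [map_mul, mul_zero] at hr
    have := P.isPrime
    rcases mul_eq_zero.1 hr with h | h
    · exact hpc h
    · exact hγc h
  obtain ⟨r, rfl⟩ := Ideal.Quotient.mk_surjective r
  obtain ⟨u₁, hu₁⟩ := inv_mod (P := P) (w := γ.eval c)
    fun h => hγc (Ideal.Quotient.eq_zero_iff_mem.2 h)
  obtain ⟨u₂, hu₂⟩ := inv_mod (P := P) (w := r)
    fun h => hr0 (Ideal.Quotient.eq_zero_iff_mem.2 h)
  obtain ⟨e₀, he₀⟩ : ∃ e₀ : R, e₀ = u₁ * u₂ := ⟨_, rfl⟩
  obtain ⟨β, hβ⟩ : ∃ β : R[X], β = (γ ^ 2 + C ϖ) * p := ⟨_, rfl⟩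
  obtain ⟨z₁, hz₁⟩ : ∃ z₁ : R[X], z₁ = C ϖ + ε ^ 2 - C d * w₁ := ⟨_, rfl⟩
  obtain ⟨z₂, hz₂⟩ : ∃ z₂ : R[X], z₂ = q * v ^ 2 - 1 - γ' * a := ⟨_, rfl⟩
  have hTAU' := hTAU R (P.asIdeal ^ 8) c' γ' f g hg hf hγ'm hγ'n hfac'
  refine ⟨s, β, v, γ', c', e₀, hs, ?_, hγ'm, hγ'n, hγγ, ?_, ?_, ?_⟩
  · have h1 : (γ ^ 2 + C ϖ) ^ ((1, 0) : Ty).1.val * p = β := by
      have h3 : ((1, 0) : Ty).1.val = 1 := rfl
      rw [h3, pow_one, hβ]
    rw [h1] at hsp
    exact hsp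
  · intro n
    have h1 := (hTAU' (β * (X - C c') * v ^ 2 * X ^ n)).1
    have h3 : (X - C c') * (β * (X - C c') * v ^ 2 * X ^ n) =
        β * ((X - C c') * v) ^ 2 * X ^ n := by ring
    rw [h3] at h1
    have h4 : tau γ' (β * (X - C c') * v ^ 2 * X ^ n) =
        tau γ' (C (-d) * X ^ n + (z₁ * (p * (X - C c') * v ^ 2 * X ^ n) +
          z₂ * (-(C d) * X ^ n))) := by
      apply tau_congr hγ'm
      refine ⟨((γ' + 2 * ε) * p * (X - C c') * v ^ 2 - C d * a) * X ^ n, ?_⟩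
      have h5 : γ = γ' + ε := by rw [hε]; ring
      rw [hβ, hz₁, hz₂, hq, C_neg, h5]
      ring
    rw [tau_add, tau_C_mul] at h4
    have h5 : tau γ' (z₁ * (p * (X - C c') * v ^ 2 * X ^ n) + z₂ * (-(C d) * X ^ n)) ∈
        P.asIdeal ^ 8 := by
      refine tau_zer hγ'm (zer_add (zer_mul ?_ _) (zer_mul ?_ _))
      · rw [hz₁]
        exact hw₁
      · rw [hz₂]
        exact hva
    have h6 : tau f (β * ((X - C c') * v) ^ 2 * X ^ n) + d * tau γ' (X ^ n) =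
        (tau f (β * ((X - C c') * v) ^ 2 * X ^ n) - tau γ' (β * (X - C c') * v ^ 2 * X ^ n)) +
        tau γ' (z₁ * (p * (X - C c') * v ^ 2 * X ^ n) + z₂ * (-(C d) * X ^ n)) := by
      rw [h4]
      ring
    rw [h6]
    exact Ideal.add_mem _ h1 h5
  · intro n
    have h1 := (hTAU' (β * v * (γ' * C e₀) * X ^ n)).1
    have h3 : (X - C c') * (β * v * (γ' * C e₀) * X ^ n) =
        β * ((X - C c') * v) * (γ' * C e₀) * X ^ n := by ring
    have h4 : tau γ' (β * v * (γ' * C e₀) * X ^ n) = 0 := by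
      rw [← tau_zero γ']
      apply tau_congr hγ'm
      exact ⟨β * v * C e₀ * X ^ n, by ring⟩
    rw [h3, h4, sub_zero] at h1
    exact h1
  · have hev : ∀ h : R[X], Ideal.Quotient.mk P.asIdeal (h.eval c') =
        Ideal.Quotient.mk P.asIdeal (h.eval c) := by
      intro h
      rw [← eval_map_apply, ← eval_map_apply, hcc]
    have hγ'c : Ideal.Quotient.mk P.asIdeal (γ'.eval c) =
        Ideal.Quotient.mk P.asIdeal (γ.eval c) := by
      rw [← eval_map_apply, ← eval_map_apply]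
      exact congrArg _ hγγ'
    have hval : Ideal.Quotient.mk P.asIdeal ((β * γ' * C e₀ ^ 2).eval c') = 1 := by
      rw [hev]
      have hϖ0 : Ideal.Quotient.mk P.asIdeal ϖ = 0 := Ideal.Quotient.eq_zero_iff_mem.2 hϖ
      rw [hβ]
      simp only [eval_mul, eval_add, eval_pow, eval_C, map_mul, map_add, map_pow, hϖ0, add_zero,
        hγ'c, he₀]
      rw [map_mul] at hr
      have e1 := hu₁
      have e2 := hu₂
      generalize Ideal.Quotient.mk P.asIdeal (γ.eval c) = G at *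
      generalize Ideal.Quotient.mk P.asIdeal (p.eval c) = Q at *
      generalize Ideal.Quotient.mk P.asIdeal u₁ = U at *
      generalize Ideal.Quotient.mk P.asIdeal u₂ = V at *
      generalize Ideal.Quotient.mk P.asIdeal r = T at *
      have h7 : G ^ 2 * Q * G * (U * V) ^ 2 = (G * U) ^ 2 * ((Q * G) * V ^ 2) := by ring
      rw [h7, hr, e1]
      have h8 : (1 : R ⧸ P.asIdeal) ^ 2 * (T * T * V ^ 2) = (T * V) ^ 2 := by ring
      rw [h8, e2, one_pow]
    have h1 := (hTAU' (β * γ' * C e₀ ^ 2)).2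
    have h3 := (hTAU' (β * γ' * C e₀ ^ 2 * X)).2
    have h4 : γ' * (β * γ' * C e₀ ^ 2) = β * (γ' * C e₀) ^ 2 := by ring
    have h5 : γ' * (β * γ' * C e₀ ^ 2 * X) = β * (γ' * C e₀) ^ 2 * X := by ring
    rw [h4] at h1
    rw [h5] at h3
    constructor
    · have h6 := Ideal.Quotient.eq.2 (hle8 h1)
      rw [← Ideal.Quotient.eq, h6, hval, map_one]
    · have h6 := Ideal.Quotient.eq.2 (hle8 h3)
      rw [← Ideal.Quotient.eq, h6, eval_mul, map_mul, hval, one_mul, eval_X, hcc]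

end Pool.PRK.H22
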